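import Pool.Agent.Y293.FA.Base

set_option autoImplicit false

/-!
Positive Lebesgue measure from bounded norms of the averaged densities (job FA-POS of helper293).
-/

namespace Pool.Agent.Y297.FA

open MeasureTheory Set Filter Topology Pool.Agent.Y293.FA
open scoped ENNReal

theorem av_zero {K : Set ℝ} {m : Measure ℝ} (hm : m Kᶜ = 0) {δ t : ℝ} (hδ : 0 < δ)
    (ht : t ∉ Metric.cthickening (δ / 2) K) : av δ m t = 0 := by
  have h : Icc (t - δ / 2) (t + δ / 2) ⊆ Kᶜ := by
    intro x hx hxK
    apply ht
    rw [mem_Icc_av] at hx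
    refine Metric.mem_cthickening_of_dist_le t x _ K hxK ?_
    rw [Real.dist_eq, abs_sub_comm]
    exact hx
  have h1 : m (Icc (t - δ / 2) (t + δ / 2)) = 0 := measure_mono_null h hm
  rw [av, Measure.real, h1]
  simp

theorem pos : S_POS := by
  intro K hK δ hδ hlim f _ hf m₀ M hm₀ hmass hqq
  have hfin : ∀ k, volume (Metric.cthickening (δ k / 2) K) ≠ ⊤ := by
    intro k
    exact (hK.isBounded.cthickening).measure_lt_top.ne
  have key : ∀ k, ∀ c : ℝ, 0 < c →
      m₀ ≤ (2 * c)⁻¹ * (volume (Metric.cthickening (δ k / 2) K)).toReal + c / 2 * M := by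
    intro k c hc
    set S := Metric.cthickening (δ k / 2) K with hS
    have hSm : MeasurableSet S := Metric.isClosed_cthickening.measurableSet
    have h1 : ∀ t, av (δ k) (f k) t ≤
        S.indicator (fun _ => (2 * c)⁻¹) t + c / 2 * av (δ k) (f k) t ^ 2 := by
      intro t
      by_cases ht : t ∈ S
      · rw [indicator_of_mem ht]
        have h2 : 0 ≤ (2 * c)⁻¹ * (c * av (δ k) (f k) t - 1) ^ 2 := by positivity
        have h3 : (2 * c)⁻¹ * (c * av (δ k) (f k) t - 1) ^ 2 =
            (2 * c)⁻¹ + c / 2 * av (δ k) (f k) t ^ 2 - av (δ k) (f k) t := by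
          field_simp; ring
        linarith
      · rw [indicator_of_notMem ht, av_zero (hf k) (hδ k) ht]
        simp
    have hint : Integrable (S.indicator fun _ : ℝ => (2 * c)⁻¹) :=
      (integrable_indicator_iff hSm).2 (integrableOn_const (hfin k))
    calc m₀ ≤ (f k).real univ := hmass k
      _ = ∫ t, av (δ k) (f k) t := (integral_av (hδ k) (f k)).symm
      _ ≤ ∫ t, (S.indicator (fun _ => (2 * c)⁻¹) t + c / 2 * av (δ k) (f k) t ^ 2) :=
        integral_mono (integrable_av (hδ k) (f k))
          (hint.add ((integrable_av_sq (hδ k) (f k)).const_mul _)) h1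
      _ = (2 * c)⁻¹ * (volume S).toReal + c / 2 * qq (δ k) (f k) := by
        rw [integral_add hint ((integrable_av_sq (hδ k) (f k)).const_mul _),
          integral_indicator hSm, setIntegral_const, integral_const_mul, smul_eq_mul, mul_comm,
          measureReal_def, qq]
      _ ≤ _ := by
        have := mul_le_mul_of_nonneg_left (hqq k) (show 0 ≤ c / 2 by positivity)
        linarith
  have hlim2 : Tendsto (fun k => volume (Metric.cthickening (δ k / 2) K)) atTop
      (𝓝 (volume K)) := by
    have h1 := tendsto_measure_cthickening_of_isCompact (μ := (volume : Measure ℝ)) hK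
    have h2 : Tendsto (fun k => δ k / 2) atTop (𝓝 0) := by
      simpa using hlim.div_const 2
    exact h1.comp h2
  have hlim3 : Tendsto (fun k => (volume (Metric.cthickening (δ k / 2) K)).toReal) atTop
      (𝓝 (volume K).toReal) :=
    (ENNReal.tendsto_toReal hK.measure_lt_top.ne).comp hlim2
  have key2 : ∀ c : ℝ, 0 < c → m₀ ≤ (2 * c)⁻¹ * (volume K).toReal + c / 2 * M := by
    intro c hc
    refine ge_of_tendsto ((hlim3.const_mul _).add_const _) (Eventually.of_forall fun k => key k c hc)
  by_contra hcon
  have h0 : volume K = 0 := by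
    by_contra h
    exact hcon (pos_iff_ne_zero.2 h)
  have key3 : ∀ c : ℝ, 0 < c → m₀ ≤ c / 2 * M := by
    intro c hc
    have := key2 c hc
    rw [h0] at this
    simpa using this
  have hM : 0 < M := by
    have := key3 1 one_pos
    by_contra h
    push Not at h
    linarith
  have := key3 (m₀ / M) (div_pos hm₀ hM)
  have h4 : m₀ / M / 2 * M = m₀ / 2 := by field_simp
  rw [h4] at this
  linarith

end Pool.Agent.Y297.FA
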