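import Pool.Agent.Y293.FA.Base

set_option autoImplicit false

/-!
Scaling of averaged densities and linearisation of the norm (jobs FA-SCL of helper293).
-/

namespace Pool.Agent.Y297.FA

open MeasureTheory Set Filter Topology Pool.Agent.Y293.FA

theorem av_scale (m : Measure ℝ) (ρ x d t : ℝ) (hρ : 0 < ρ) :
    av d (m.map fun t => x + ρ * t) t = ρ⁻¹ * av (d / ρ) m ((t - x) / ρ) := by
  rw [av_map m (by fun_prop)]
  have h : {z : ℝ | |x + ρ * z - t| ≤ d / 2} =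
      Icc ((t - x) / ρ - d / ρ / 2) ((t - x) / ρ + d / ρ / 2) := by
    ext z
    rw [mem_Icc_av, mem_ofPred_eq]
    have h1 : x + ρ * z - t = ρ * (z - (t - x) / ρ) := by field_simp; ring
    rw [h1, abs_mul, abs_of_pos hρ]
    constructor
    · intro h2
      rw [show d / ρ / 2 = d / 2 / ρ by ring, le_div_iff₀ hρ]
      linarith
    · intro h2
      rw [show d / ρ / 2 = d / 2 / ρ by ring, le_div_iff₀ hρ] at h2
      linarith
  rw [h, av, inv_div, ← mul_assoc]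
  congr 1
  field_simp

theorem scale : S_SCALE := by
  intro m _ ρ x a b hρ _ _
  unfold dd
  have h : (fun t => (av a (m.map fun t => x + ρ * t) t - av b (m.map fun t => x + ρ * t) t) ^ 2) =
      fun t => ρ⁻¹ ^ 2 * (fun s => (av (a / ρ) m s - av (b / ρ) m s) ^ 2) ((t - x) / ρ) := by
    funext t
    rw [av_scale m ρ x a t hρ, av_scale m ρ x b t hρ]
    ring
  rw [h, integral_const_mul]
  have h2 : ∫ t, (fun s => (av (a / ρ) m s - av (b / ρ) m s) ^ 2) ((t - x) / ρ) =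
      ρ * ∫ s, (av (a / ρ) m s - av (b / ρ) m s) ^ 2 := by
    have h3 := integral_sub_right_eq_self (μ := (volume : Measure ℝ))
      (fun t => (fun s => (av (a / ρ) m s - av (b / ρ) m s) ^ 2) (t / ρ)) x
    rw [h3, Measure.integral_comp_div (fun s => (av (a / ρ) m s - av (b / ρ) m s) ^ 2) ρ,
      abs_of_pos hρ, smul_eq_mul]
  rw [h2]
  field_simp

theorem lin : S_LIN := by
  intro u h hu
  have hn : 0 < ‖u‖ := norm_pos_iff.2 hu
  set R := (h * (starRingEnd ℂ) u).re with hR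
  have hRb : |R| ≤ ‖h‖ * ‖u‖ := by
    calc |R| ≤ ‖h * (starRingEnd ℂ) u‖ := Complex.abs_re_le_norm _
      _ = ‖h‖ * ‖u‖ := by rw [norm_mul, RCLike.norm_conj]
  have hsq : ‖u + h‖ ^ 2 = ‖u‖ ^ 2 + 2 * R + ‖h‖ ^ 2 := by
    rw [← Complex.normSq_eq_norm_sq, ← Complex.normSq_eq_norm_sq, ← Complex.normSq_eq_norm_sq,
      Complex.normSq_add, hR]
    have : (u * (starRingEnd ℂ) h).re = (h * (starRingEnd ℂ) u).re := by
      simp [Complex.mul_re]; ring
    rw [this]; ring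
  set A := ‖u‖ + R / ‖u‖ with hA
  have hRu : |R / ‖u‖| ≤ ‖h‖ := by
    rw [abs_div, abs_of_pos hn, div_le_iff₀ hn]; exact hRb
  have e1 : ‖u + h‖ - ‖u‖ - R / ‖u‖ = ‖u + h‖ - A := by rw [hA]; ring
  rw [e1]
  have hRu' := abs_le.1 hRu
  by_cases hc : ‖h‖ ≤ ‖u‖ / 2
  · have hApos : ‖u‖ / 2 ≤ A := by linarith
    have hA0 : 0 < A := by linarith
    have h1 : ‖u + h‖ ^ 2 - A ^ 2 = ‖h‖ ^ 2 - (R / ‖u‖) ^ 2 := by
      rw [hsq, hA]; field_simp; ring
    have h2 : (R / ‖u‖) ^ 2 ≤ ‖h‖ ^ 2 := by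
      rw [← sq_abs (R / ‖u‖)]
      exact pow_le_pow_left₀ (abs_nonneg _) hRu 2
    have h3 : A ≤ ‖u + h‖ := by
      apply le_of_sq_le_sq _ (norm_nonneg _)
      linarith
    rw [abs_of_nonneg (by linarith)]
    rw [le_div_iff₀ hn]
    have h4 : (‖u + h‖ - A) * (‖u + h‖ + A) ≤ ‖h‖ ^ 2 := by
      have : (‖u + h‖ - A) * (‖u + h‖ + A) = ‖u + h‖ ^ 2 - A ^ 2 := by ring
      rw [this, h1]; nlinarith [sq_nonneg (R / ‖u‖)]
    nlinarith [mul_le_mul_of_nonneg_left (show ‖u‖ / 2 ≤ ‖u + h‖ + A by linarith)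
      (show 0 ≤ ‖u + h‖ - A by linarith), sq_nonneg ‖h‖]
  · push Not at hc
    have h1 : |‖u + h‖ - A| ≤ 2 * ‖h‖ := by
      have h2 : |‖u + h‖ - ‖u‖| ≤ ‖h‖ := by
        have := abs_norm_sub_norm_le (u + h) u
        simpa using this
      have h3 : ‖u + h‖ - A = (‖u + h‖ - ‖u‖) - R / ‖u‖ := by rw [hA]; ring
      rw [h3]
      calc _ ≤ |‖u + h‖ - ‖u‖| + |R / ‖u‖| := abs_sub _ _
        _ ≤ 2 * ‖h‖ := by linarith
    refine h1.trans ?_
    rw [le_div_iff₀ hn]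
    nlinarith [norm_nonneg h]

end Pool.Agent.Y297.FA
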